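import Pool.Agent.H84.KBOX.Stmts

/-!
# Row FRA: inversion of the rounded frame
-/

set_option autoImplicit false

namespace Pool.KBX.FRA

open Finset Real

/-- The transposed inverse of a matrix. -/
noncomputable def iv {n : ℕ} (M : Matrix (Fin n) (Fin n) ℝ) : Matrix (Fin n) (Fin n) ℝ := (M.transpose)⁻¹

/-- The rounded vectors are near the vectors. -/
theorem fr_near {n : ℕ} (b : ℕ) (V : Fin n → Fin n → ℝ) (j i : Fin n) :
    |(fr b V j i : ℝ) / 2 ^ b - V j i| ≤ 1 / 2 ^ b := by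
  have h2 : (0 : ℝ) < 2 ^ b := by positivity
  have h1 : ((⌊(2 : ℝ) ^ b * V j i⌋ : ℤ) : ℝ) ≤ 2 ^ b * V j i := Int.floor_le _
  have h3 : (2 : ℝ) ^ b * V j i < (⌊(2 : ℝ) ^ b * V j i⌋ : ℤ) + 1 := Int.lt_floor_add_one _
  have he : (fr b V j i : ℝ) / 2 ^ b - V j i =
      (((⌊(2 : ℝ) ^ b * V j i⌋ : ℤ) : ℝ) - 2 ^ b * V j i) / 2 ^ b := by
    simp only [fr]
    field_simp
  rw [he, abs_div, abs_of_pos h2]
  apply div_le_div_of_nonneg_right _ h2.le
  rw [abs_le]
  constructor <;> linarith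

theorem fra (n : ℕ) (C₀ δ : ℝ) (hC : 1 ≤ C₀) (hδ : 0 < δ) : ∃ R b₀ : ℕ, 1 ≤ R ∧
    ∀ (b : ℕ), b₀ ≤ b → ∃ Iv : (Fin n → Fin n → ℤ) → Fin n → Fin n → ℝ,
      ∀ V : Fin n → Fin n → ℝ, (∀ j i, |V j i| ≤ C₀) → δ ^ n ≤ |Matrix.det (Matrix.of V)| →
        (∀ j i, |Iv (fr b V) j i| ≤ R) ∧
        (∀ j j', ∑ i, Iv (fr b V) j i * ((fr b V j' i : ℝ) / 2 ^ b) = if j = j' then 1 else 0) ∧
        (∀ i i', ∑ j, ((fr b V j i : ℝ) / 2 ^ b) * Iv (fr b V) j i' =
          if i = i' then 1 else 0) := by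
  -- compactness
  have hK : IsCompact (Metric.closedBall (0 : Fin n → Fin n → ℝ) (C₀ + 1)) :=
    isCompact_closedBall _ _
  have hcof : Continuous fun V : Fin n → Fin n → ℝ => (Matrix.of V : Matrix (Fin n) (Fin n) ℝ) :=
    continuous_id
  have hdet : Continuous fun V : Fin n → Fin n → ℝ => Matrix.det (Matrix.of V) :=
    hcof.matrix_det
  have huc := hK.uniformContinuousOn_of_continuous hdet.continuousOn
  have hη : (0 : ℝ) < δ ^ n / 2 := by positivity
  rw [Metric.uniformContinuousOn_iff] at huc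
  obtain ⟨η, hη0, hη1⟩ := huc (δ ^ n / 2) hη
  have hadj : Continuous fun V : Fin n → Fin n → ℝ =>
      ((Matrix.of V : Matrix (Fin n) (Fin n) ℝ).transpose.adjugate : Matrix (Fin n) (Fin n) ℝ) :=
    hcof.matrix_transpose.matrix_adjugate
  have hbd : ∃ A : ℝ, 0 ≤ A ∧ ∀ V ∈ Metric.closedBall (0 : Fin n → Fin n → ℝ) (C₀ + 1), ∀ j i,
      |((Matrix.of V : Matrix (Fin n) (Fin n) ℝ).transpose.adjugate) j i| ≤ A := by
    have h1 : ∀ j i : Fin n, ∃ A : ℝ, ∀ V ∈ Metric.closedBall (0 : Fin n → Fin n → ℝ) (C₀ + 1),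
        |((Matrix.of V : Matrix (Fin n) (Fin n) ℝ).transpose.adjugate) j i| ≤ A := by
      intro j i
      have hc : Continuous fun V : Fin n → Fin n → ℝ =>
          ((Matrix.of V : Matrix (Fin n) (Fin n) ℝ).transpose.adjugate) j i :=
        (continuous_apply i).comp ((continuous_apply j).comp hadj)
      obtain ⟨A, hA⟩ := hK.exists_bound_of_continuousOn hc.continuousOn
      exact ⟨A, fun V hV => by simpa [Real.norm_eq_abs] using hA V hV⟩
    choose A hA using h1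
    refine ⟨∑ j, ∑ i, |A j i|, sum_nonneg fun j _ => sum_nonneg fun i _ => abs_nonneg _, ?_⟩
    intro V hV j i
    calc |((Matrix.of V : Matrix (Fin n) (Fin n) ℝ).transpose.adjugate) j i| ≤ A j i := hA j i V hV
      _ ≤ |A j i| := le_abs_self _
      _ ≤ ∑ i, |A j i| := single_le_sum (f := fun i => |A j i|) (fun i _ => abs_nonneg _)
          (mem_univ i)
      _ ≤ ∑ j, ∑ i, |A j i| := single_le_sum (f := fun j => ∑ i, |A j i|)
          (fun j _ => sum_nonneg fun i _ => abs_nonneg _) (mem_univ j)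
  obtain ⟨A, hA0, hA⟩ := hbd
  obtain ⟨b₀, hb₀⟩ := exists_pow_lt_of_lt_one hη0 (by norm_num : (1 / 2 : ℝ) < 1)
  refine ⟨⌈A / (δ ^ n / 2)⌉₊ + 1, b₀, Nat.le_add_left _ _, ?_⟩
  intro b hb
  refine ⟨fun E => iv (Matrix.of fun j i => (E j i : ℝ) / 2 ^ b), ?_⟩
  intro V hV hVd
  set M : Fin n → Fin n → ℝ := fun j i => (fr b V j i : ℝ) / 2 ^ b with hM
  have hb2 : (1 : ℝ) / 2 ^ b < η := by
    have h1 : (1 / 2 : ℝ) ^ b ≤ (1 / 2) ^ b₀ := pow_le_pow_of_le_one (by norm_num) (by norm_num) hb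
    have h2 : (1 : ℝ) / 2 ^ b = (1 / 2) ^ b := by rw [div_pow, one_pow]
    rw [h2]
    linarith
  have hb1 : (1 : ℝ) / 2 ^ b ≤ 1 := by
    rw [div_le_one (by positivity)]
    exact one_le_pow₀ (by norm_num)
  have hMV : ∀ j i, |M j i - V j i| ≤ 1 / 2 ^ b := fun j i => fr_near b V j i
  have hVK : V ∈ Metric.closedBall (0 : Fin n → Fin n → ℝ) (C₀ + 1) := by
    rw [mem_closedBall_zero_iff, pi_norm_le_iff_of_nonneg (by linarith)]
    intro j
    rw [pi_norm_le_iff_of_nonneg (by linarith)]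
    intro i
    rw [Real.norm_eq_abs]
    linarith [hV j i]
  have hMK : M ∈ Metric.closedBall (0 : Fin n → Fin n → ℝ) (C₀ + 1) := by
    rw [mem_closedBall_zero_iff, pi_norm_le_iff_of_nonneg (by linarith)]
    intro j
    rw [pi_norm_le_iff_of_nonneg (by linarith)]
    intro i
    rw [Real.norm_eq_abs]
    have h1 := hMV j i
    have h2 := hV j i
    have h3 : |M j i| ≤ |M j i - V j i| + |V j i| := by
      calc |M j i| = |(M j i - V j i) + V j i| := by rw [sub_add_cancel]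
        _ ≤ _ := abs_add_le _ _
    linarith
  have hdist : dist M V < η := by
    refine lt_of_le_of_lt ?_ hb2
    rw [dist_pi_le_iff (by positivity)]
    intro j
    rw [dist_pi_le_iff (by positivity)]
    intro i
    rw [Real.dist_eq]
    exact hMV j i
  have hdM := hη1 M hMK V hVK hdist
  rw [Real.dist_eq] at hdM
  have hdM2 : δ ^ n / 2 ≤ |Matrix.det (Matrix.of M)| := by
    have h1 : |Matrix.det (Matrix.of V)| ≤
        |Matrix.det (Matrix.of M) - Matrix.det (Matrix.of V)| + |Matrix.det (Matrix.of M)| := by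
      calc |Matrix.det (Matrix.of V)| =
          |-(Matrix.det (Matrix.of M) - Matrix.det (Matrix.of V)) + Matrix.det (Matrix.of M)| := by
            congr 1; ring
        _ ≤ _ := by
            refine (abs_add_le _ _).trans ?_
            rw [abs_neg]
    linarith
  have hu : IsUnit (Matrix.det ((Matrix.of M : Matrix (Fin n) (Fin n) ℝ).transpose)) := by
    rw [Matrix.det_transpose, isUnit_iff_ne_zero]
    intro h0
    rw [h0, abs_zero] at hdM2
    linarith
  refine ⟨?_, ?_, ?_⟩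
  · intro j i
    have h1 : iv (Matrix.of M) j i = (Matrix.det (Matrix.of M))⁻¹ *
        ((Matrix.of M : Matrix (Fin n) (Fin n) ℝ).transpose.adjugate) j i := by
      unfold iv
      rw [Matrix.inv_def, Matrix.smul_apply, Matrix.det_transpose, Ring.inverse_eq_inv', smul_eq_mul]
    change |iv (Matrix.of M) j i| ≤ _
    rw [h1, abs_mul, abs_inv]
    have h2 := hA M hMK j i
    have h3 : |Matrix.det (Matrix.of M)|⁻¹ ≤ (δ ^ n / 2)⁻¹ := inv_anti₀ hη hdM2
    calc |Matrix.det (Matrix.of M)|⁻¹ *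
          |((Matrix.of M : Matrix (Fin n) (Fin n) ℝ).transpose.adjugate) j i| ≤
          (δ ^ n / 2)⁻¹ * A := mul_le_mul h3 h2 (abs_nonneg _) (by positivity)
      _ = A / (δ ^ n / 2) := by rw [mul_comm, div_eq_mul_inv A]
      _ ≤ ⌈A / (δ ^ n / 2)⌉₊ := Nat.le_ceil _
      _ ≤ ((⌈A / (δ ^ n / 2)⌉₊ + 1 : ℕ) : ℝ) := by push_cast; linarith
  · intro j j'
    have h1 := Matrix.nonsing_inv_mul (Matrix.of M : Matrix (Fin n) (Fin n) ℝ).transpose hu
    have h2 : (iv (Matrix.of M) * (Matrix.of M : Matrix (Fin n) (Fin n) ℝ).transpose) j j' =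
        (1 : Matrix (Fin n) (Fin n) ℝ) j j' := by
      unfold iv
      rw [h1]
    rw [Matrix.mul_apply, Matrix.one_apply] at h2
    exact h2
  · intro i i'
    have h1 := Matrix.mul_nonsing_inv (Matrix.of M : Matrix (Fin n) (Fin n) ℝ).transpose hu
    have h2 : ((Matrix.of M : Matrix (Fin n) (Fin n) ℝ).transpose * iv (Matrix.of M)) i i' =
        (1 : Matrix (Fin n) (Fin n) ℝ) i i' := by
      unfold iv
      rw [h1]
    rw [Matrix.mul_apply, Matrix.one_apply] at h2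
    exact h2

end Pool.KBX.FRA

namespace Pool.KBX

/-- Row FRA. -/
theorem fra_thm : FRAStmt := fun n C₀ δ hC hδ => FRA.fra n C₀ δ hC hδ

end Pool.KBX
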